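import Pool.Agent.Lib.MP_c7af3c_ag.SHARP.H75.Integ

/-!
# MP_c7af3c_ag, project SHARP: the integrability lemma, second part
-/

set_option autoImplicit false

namespace Pool.Agent.Sharp.H75

open MvPolynomial Pool.Agent.Gen Pool.Agent.Sharp Pool.Agent.Sharp.H54

section

variable {L : Type} [Field L] {n c : ℕ} {d : Fin c → ℕ} {D : DSys L n c d}

/-- a functional as a vector -/
def vec (f : (Fin (n + 1) → L) →ₗ[L] L) : Fin (n + 1) → L := fun p => f (Pi.single p 1)

theorem dt_vec (f : (Fin (n + 1) → L) →ₗ[L] L) (u : Fin (n + 1) → L) : dt (vec f) u = f u := by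
  classical
  have h : u = ∑ p, u p • Pi.single p (1 : L) := by
    funext r
    simp [Finset.sum_apply, Pi.single_apply]
  conv_rhs => rw [h]
  rw [map_sum]
  unfold dt vec
  refine Finset.sum_congr rfl fun p _ => ?_
  rw [map_smul, smul_eq_mul, mul_comm]

theorem dz_sum {ι : Type} (s : Finset ι) (H : ι → MvPolynomial (Fin (n + 1)) L)
    (x y z : Fin (n + 1) → L) : dz (∑ i ∈ s, H i) x y z = ∑ i ∈ s, dz (H i) x y z := by
  classical
  unfold dz
  rw [Finset.sum_comm]
  refine Finset.sum_congr rfl fun p _ => ?_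
  rw [map_sum, lineP_sum, Finset.sum_mul]

/-- the derivative of a product with a linear form that vanishes on the line -/
theorem dz_lf_mul (a : Fin (n + 1) → L) (Q : MvPolynomial (Fin (n + 1)) L)
    {x y : Fin (n + 1) → L} (hx : dt a x = 0) (hy : dt a y = 0) (z : Fin (n + 1) → L) :
    dz (lf a * Q) x y z = Polynomial.C (dt a z) * lineP Q x y := by
  unfold dz
  have h1 : ∀ p, lineP (pderiv p (lf a * Q)) x y * Polynomial.C (z p) =
      Polynomial.C (a p * z p) * lineP Q x y := by
    intro p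
    rw [Derivation.leibniz, pderiv_lf]
    simp only [smul_eq_mul]
    rw [lineP_add, lineP_mul, lineP_mul, lineP_lf, lineP_C, hx, hy, map_mul]
    simp
    ring
  rw [Finset.sum_congr rfl fun p _ => h1 p, ← Finset.sum_mul, ← map_sum]
  rfl

theorem dz_C_mul (a : L) (Q : MvPolynomial (Fin (n + 1)) L) (x y z : Fin (n + 1) → L) :
    dz (C a * Q) x y z = Polynomial.C a * dz Q x y z := by
  unfold dz
  rw [Finset.mul_sum]
  refine Finset.sum_congr rfl fun p _ => ?_
  rw [pderiv_C_mul, lineP_mul, lineP_C, mul_assoc]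

/-- membership in the span of `x` -/
theorem mem_span_x {x u : Fin (n + 1) → L} (h : u ∈ Submodule.span L {x}) :
    ∃ lam : L, ∀ p, u p = lam * x p := by
  obtain ⟨lam, rfl⟩ := Submodule.mem_span_singleton.1 h
  exact ⟨lam, fun p => rfl⟩

/-- the integrability lemma -/
theorem integ [CharZero L] (hc : Comm D) {x y : Fin (n + 1) → L}
    (hxy : LinearIndependent L ![x, y]) (h0 : ∀ m, eval x (D.F m) = 0) {κ : ℕ}
    (hE : Module.finrank L (TT D x y) ≤ κ + 1) (hn : 2 * κ + 2 + c ≤ n) :
    RR D x y ≤ Submodule.span L {x, y} := by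
  classical
  have hdp := d_pos h0
  obtain ⟨α, β, hαx, hαy, hβx, hβy⟩ := exists_ab hxy
  set Δ : Submodule L (Fin (n + 1) → L) := Submodule.span L {x, y} with hΔ
  set q := Δ.mkQ with hq
  have hxΔ : x ∈ Δ := Submodule.subset_span (by simp)
  have hyΔ : y ∈ Δ := Submodule.subset_span (by simp)
  have hqx : q x = 0 := by
    rw [hq, Submodule.mkQ_apply, Submodule.Quotient.mk_eq_zero]; exact hxΔ
  have hqy : q y = 0 := by
    rw [hq, Submodule.mkQ_apply, Submodule.Quotient.mk_eq_zero]; exact hyΔ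
  by_contra hcon
  set Rb : Submodule L ((Fin (n + 1) → L) ⧸ Δ) := (RR D x y).map q with hRb
  have hRbne : Rb ≠ ⊥ := by
    intro h
    apply hcon
    intro u hu
    have h1 : q u ∈ Rb := ⟨u, hu, rfl⟩
    rw [h, Submodule.mem_bot, hq, Submodule.mkQ_apply, Submodule.Quotient.mk_eq_zero] at h1
    exact h1
  set ρ := Module.finrank L Rb with hρ
  have hρ1 : 1 ≤ ρ := by
    rw [hρ, Nat.one_le_iff_ne_zero]
    intro h
    exact hRbne (Submodule.finrank_eq_zero.1 h)
  set b := Module.finBasis L Rb with hb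
  -- lifts of the basis
  have hlift : ∀ j : Fin ρ, ∃ ξ : Tup L n c × Mt L n, ξ ∈ S0 D x y ∧
      q (op D y ξ) = (b j : (Fin (n + 1) → L) ⧸ Δ) := by
    intro j
    obtain ⟨u, hu, hu'⟩ := (b j).2
    obtain ⟨ξ, hξ, rfl⟩ := hu
    exact ⟨ξ, hξ, hu'⟩
  choose ξ hξS hξq using hlift
  -- functionals
  have hfun : ∀ j : Fin ρ, ∃ g : ((Fin (n + 1) → L) ⧸ Δ) →ₗ[L] L,
      ∀ i, g (b i : (Fin (n + 1) → L) ⧸ Δ) = if i = j then 1 else 0 := by
    intro j
    obtain ⟨g, hg⟩ := LinearMap.exists_extend (b.coord j)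
    refine ⟨g, fun i => ?_⟩
    have h1 : g ((b i : Rb) : (Fin (n + 1) → L) ⧸ Δ) = (g ∘ₗ Rb.subtype) (b i) := rfl
    rw [h1, hg, Module.Basis.coord_apply, Module.Basis.repr_self, Finsupp.single_apply]
  choose g hg using hfun
  set a : Fin ρ → Fin (n + 1) → L := fun j => vec ((g j).comp q) with ha
  have hax : ∀ j, dt (a j) x = 0 := by
    intro j
    rw [ha, dt_vec, LinearMap.comp_apply, hqx, map_zero]
  have hay : ∀ j, dt (a j) y = 0 := by
    intro j
    rw [ha, dt_vec, LinearMap.comp_apply, hqy, map_zero]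
  have haξ : ∀ i j, dt (a j) (op D y (ξ i)) = if i = j then 1 else 0 := by
    intro i j
    rw [ha, dt_vec, LinearMap.comp_apply, hξq i, hg j i]
  -- the range of `phi`
  set PP := (QQ d).map (phi D x y β) with hPP
  set N := Module.finrank L PP with hN
  have hNκ : κ + 2 ≤ N := by
    have := finrank_phi hxy h0 hβx hβy
    rw [← hPP, ← hN] at this
    omega
  set w := Module.finBasis L PP with hw
  have hliftw : ∀ k : Fin N, ∃ Q : Tup L n c, Q ∈ QQ d ∧ phi D x y β Q =
      (w k : (Fin (n + 1) → L) ⧸ TT D x y) := by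
    intro k
    obtain ⟨Q, hQ, hQ'⟩ := (w k).2
    exact ⟨Q, hQ, hQ'⟩
  choose Q hQQ hQw using hliftw
  -- the tuples `H_c`
  let Hc : (Fin ρ × Fin N → L) →ₗ[L] Tup L n c :=
    ∑ ik : Fin ρ × Fin N, (LinearMap.proj ik : (Fin ρ × Fin N → L) →ₗ[L] L).smulRight
      (ml (a ik.1) (Q ik.2))
  have hHc : ∀ s, Hc s = ∑ ik : Fin ρ × Fin N, s ik • ml (a ik.1) (Q ik.2) := by
    intro s
    simp only [Hc, LinearMap.sum_apply, LinearMap.smulRight_apply, LinearMap.proj_apply]
  have hHI : ∀ s, Hc s ∈ IL d x y := by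
    intro s
    rw [hHc]
    refine Submodule.sum_mem _ fun ik _ => Submodule.smul_mem _ _ ?_
    refine ⟨ml_hom hdp _ (hQQ _), fun m => ?_⟩
    change lineP (lf (a ik.1) * Q ik.2 m) x y = 0
    rw [lineP_mul, lineP_lf, hax, hay]
    simp
  -- first map
  set qx := (Submodule.span L {x}).mkQ with hqxdef
  set f1 : (Fin ρ × Fin N → L) →ₗ[L] ((Fin (n + 1) → L) ⧸ Submodule.span L {x}) :=
    qx.comp ((VT D x).comp Hc) with hf1
  have hx0 : x ≠ 0 := by
    have := hxy.ne_zero 0
    simpa using this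
  have hr1 : Module.finrank L (LinearMap.range f1) ≤ κ := by
    have h1 : LinearMap.range f1 ≤ (TT D x y).map qx := by
      rintro _ ⟨s, rfl⟩
      exact ⟨VT D x (Hc s), VT_mem' (hHI s), rfl⟩
    have h2 := Submodule.finrank_mono h1
    have h3 : Module.finrank L ((TT D x y).map qx) + 1 ≤ Module.finrank L (TT D x y) := by
      have h4 := LinearMap.finrank_range_add_finrank_ker (qx.domRestrict (TT D x y))
      have h5 : LinearMap.range (qx.domRestrict (TT D x y)) = (TT D x y).map qx := by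
        rw [LinearMap.range_domRestrict]
      rw [h5] at h4
      have h6 : 1 ≤ Module.finrank L (LinearMap.ker (qx.domRestrict (TT D x y))) := by
        rw [Nat.one_le_iff_ne_zero]
        intro h7
        have h8 := Submodule.finrank_eq_zero.1 h7
        have h9 : (⟨x, x_mem x y⟩ : TT D x y) ∈ LinearMap.ker (qx.domRestrict (TT D x y)) := by
          rw [LinearMap.mem_ker, LinearMap.domRestrict_apply, hqxdef, Submodule.mkQ_apply,
            Submodule.Quotient.mk_eq_zero]
          exact Submodule.mem_span_singleton_self x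
        rw [h8, Submodule.mem_bot] at h9
        exact hx0 (congrArg Subtype.val h9)
      omega
    omega
  have hk1 : ρ * N ≤ Module.finrank L (LinearMap.ker f1) + κ := by
    have h1 := LinearMap.finrank_range_add_finrank_ker f1
    rw [Module.finrank_fintype_fun_eq_card, Fintype.card_prod, Fintype.card_fin,
      Fintype.card_fin] at h1
    omega
  -- second map
  have hS : ∀ s : LinearMap.ker f1, (Hc s.1, (0 : Mt L n)) ∈ S0 D x y := by
    intro s
    rw [mem_S0]
    refine ⟨hHI _, ?_⟩
    rw [op_zero]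
    have h1 : qx (VT D x (Hc s.1)) = 0 := LinearMap.mem_ker.1 s.2
    rw [hqxdef, Submodule.mkQ_apply, Submodule.Quotient.mk_eq_zero] at h1
    exact h1
  let f2 : LinearMap.ker f1 →ₗ[L] Rb :=
    LinearMap.codRestrict Rb ((q.comp ((VT D y).comp Hc)).comp (LinearMap.ker f1).subtype) (by
      intro s
      refine ⟨op D y (Hc s.1, 0), ⟨_, hS s, rfl⟩, ?_⟩
      rw [op_zero]
      rfl)
  have hk2 : LinearMap.ker f2 ≠ ⊥ := by
    apply LinearMap.ker_ne_bot_of_finrank_lt
    rw [← hρ]
    nlinarith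
  obtain ⟨s, hs, hs0⟩ := (Submodule.ne_bot_iff _).1 hk2
  have hs1 : q (VT D y (Hc s.1)) = 0 := congrArg Subtype.val (LinearMap.mem_ker.1 hs)
  apply hs0
  apply Subtype.ext
  change (s.1 : Fin ρ × Fin N → L) = 0
  set H := Hc s.1 with hH
  -- `D_H` preserves `x` and the line
  obtain ⟨mu, hmu⟩ : ∃ mu : L, ∀ p, DG D H (x p) = mu * x p := by
    have h1 := ((mem_S0 D).1 (hS s)).2
    rw [op_zero] at h1
    obtain ⟨mu, hmu⟩ := mem_span_x h1
    exact ⟨mu, fun p => by rw [← hmu p, VT_apply]⟩
  obtain ⟨α', β', hαβ⟩ : ∃ α' β' : L, ∀ p, DG D H (y p) = α' * x p + β' * y p := by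
    rw [hq, Submodule.mkQ_apply, Submodule.Quotient.mk_eq_zero, hΔ,
      Submodule.mem_span_pair] at hs1
    obtain ⟨α', β', h1⟩ := hs1
    refine ⟨α', β', fun p => ?_⟩
    rw [← VT_apply, ← h1]
    rfl
  -- the conclusion for every `j`
  have hj : ∀ j, ∑ k, s.1 (j, k) • (w k : (Fin (n + 1) → L) ⧸ TT D x y) = 0 := by
    intro j
    obtain ⟨hξ1, hξ2⟩ := (mem_S0 D).1 (hξS j)
    obtain ⟨lam, hlam⟩ := mem_span_x hξ2
    set z := op D y (ξ j) with hz
    set δ := DG D ((ξ j).1 + fun m => af (ξ j).2 (D.F m)) with hδ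
    have hlam' : ∀ p, δ (x p) + dt ((ξ j).2 p) x = lam * x p := fun p => by
      rw [← hlam p]
      exact (op_apply D x (ξ j).1 (ξ j).2 p).symm
    have hz' : ∀ p, z p = δ (y p) + dt ((ξ j).2 p) y := fun p =>
      op_apply D y (ξ j).1 (ξ j).2 p
    have hkey := key hc hξ1.1 (hHI s.1).1 hξ1.2 (ξ j).2 lam mu α' β' hlam' hmu hαβ
    -- the restriction of the bracket
    have hline : ∀ m, lineP (dco δ (H m) - af (ξ j).2 (H m)) x y =
        - (Polynomial.X * dz (H m) x y z) := by
      intro m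
      have h1 := (hHI s.1).2 m
      rw [lineP_sub, line_dco δ x y h1, lineP_af]
      have h2 : ∑ p, lineP (pderiv p (H m)) x y *
          (Polynomial.C (dt ((ξ j).2 p) x) + Polynomial.X * Polynomial.C (dt ((ξ j).2 p) y)) =
          dz (H m) x y (fun p => dt ((ξ j).2 p) x) +
            Polynomial.X * dz (H m) x y (fun p => dt ((ξ j).2 p) y) := by
        unfold dz
        rw [Finset.mul_sum, ← Finset.sum_add_distrib]
        exact Finset.sum_congr rfl fun p _ => by ring
      have h3 : dz (H m) x y (fun p => δ (x p)) + dz (H m) x y (fun p => dt ((ξ j).2 p) x) = 0 := by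
        rw [← dz_add]
        have : ((fun p => δ (x p)) + fun p => dt ((ξ j).2 p) x) = lam • x := by
          funext p; exact hlam' p
        rw [this, dz_smul, dz_x ((hHI s.1).1 m) x y h1, mul_zero]
      have h4 : dz (H m) x y z = dz (H m) x y (fun p => δ (y p)) +
          dz (H m) x y (fun p => dt ((ξ j).2 p) y) := by
        rw [← dz_add]
        congr 1
        funext p; exact hz' p
      rw [h2, h4]
      linear_combination -h3
    have hdzH : ∀ m, dz (H m) x y z = ∑ k, Polynomial.C (s.1 (j, k)) * lineP (Q k m) x y := by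
      intro m
      have h1 : H m = ∑ ik : Fin ρ × Fin N, C (s.1 ik) * (lf (a ik.1) * Q ik.2 m) := by
        rw [hH, hHc, Finset.sum_apply]
        refine Finset.sum_congr rfl fun ik _ => ?_
        rw [Pi.smul_apply, smul_eq_C_mul]
        rfl
      rw [h1, dz_sum, Fintype.sum_prod_type]
      have h2 : ∀ i k, dz (C (s.1 (i, k)) * (lf (a i) * Q k m)) x y z =
          if j = i then Polynomial.C (s.1 (i, k)) * lineP (Q k m) x y else 0 := by
        intro i k
        rw [dz_C_mul, dz_lf_mul _ _ (hax i) (hay i), haξ j i]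
        split_ifs <;> simp
      simp only [h2]
      rw [Finset.sum_eq_single j]
      · simp
      · intro i _ hi
        refine Finset.sum_eq_zero fun k _ => ?_
        rw [if_neg (Ne.symm hi)]
      · intro h; exact absurd (Finset.mem_univ _) h
    set R : Tup L n c := ∑ k, s.1 (j, k) • Q k with hR
    have hRQ : R ∈ QQ d := Submodule.sum_mem _ fun k _ => Submodule.smul_mem _ _ (hQQ k)
    have hRl : ∀ m, lineP (ml β R m) x y = Polynomial.X * dz (H m) x y z := by
      intro m
      change lineP (lf β * R m) x y = _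
      rw [lineP_mul, lineP_lf, hβx, hβy, hdzH m]
      have h1 : lineP (R m) x y = ∑ k, Polynomial.C (s.1 (j, k)) * lineP (Q k m) x y := by
        rw [hR, Finset.sum_apply, lineP_sum]
        refine Finset.sum_congr rfl fun k _ => ?_
        rw [Pi.smul_apply, smul_eq_C_mul, lineP_mul, lineP_C]
      rw [h1]
      simp
    have hI : (fun m => dco δ (H m) - af (ξ j).2 (H m)) + ml β R ∈ IL d x y := by
      refine ⟨fun m => ?_, fun m => ?_⟩
      · exact ((dco_hom δ ((hHI s.1).1 m)).sub (af_hom _ ((hHI s.1).1 m))).add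
          (ml_hom hdp β hRQ m)
      · rw [Pi.add_apply, lineP_add, hline m, hRl m, neg_add_cancel]
    have h5 : VT D x (ml β R) ∈ TT D x y := by
      have h6 := VT_mem' (D := D) hI
      rw [map_add] at h6
      exact (Submodule.add_mem_iff_right _ hkey).1 h6
    have h7 : phi D x y β R = 0 := by
      rw [phi_apply, Submodule.mkQ_apply, Submodule.Quotient.mk_eq_zero]
      exact h5
    rw [hR, map_sum] at h7
    rw [← h7]
    refine Finset.sum_congr rfl fun k _ => ?_
    rw [map_smul, hQw]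
  funext jk
  obtain ⟨j, k⟩ := jk
  have h1 := hj j
  have h2 : ∑ k, s.1 (j, k) • w k = 0 := by
    apply Subtype.ext
    rw [ZeroMemClass.coe_zero, ← h1]
    simp
  exact Fintype.linearIndependent_iff.1 w.linearIndependent _ h2 k

end

end Pool.Agent.Sharp.H75
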