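import Pool.Agent.Lib.MP_c7af3c_ag.SHARP.H54.Line

/-!
# MP_c7af3c_ag, project SHARP: derivations of the coefficients, commutators
-/

set_option autoImplicit false

namespace Pool.Agent.Sharp.H75

open MvPolynomial Pool.Agent.Gen Pool.Agent.Sharp Pool.Agent.Sharp.H54

/-! ### coefficientwise derivation -/

section

variable {L : Type} [Field L] {σ : Type} (δ : Derivation ℤ L L)

/-- the derivation applied to the coefficients -/
noncomputable def dco (F : MvPolynomial σ L) : MvPolynomial σ L :=
  ∑ J ∈ F.support, monomial J (δ (coeff J F))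

theorem coeff_dco (F : MvPolynomial σ L) (J : σ →₀ ℕ) :
    coeff J (dco δ F) = δ (coeff J F) := by
  classical
  unfold dco
  rw [coeff_sum]
  simp only [coeff_monomial]
  rw [Finset.sum_ite_eq' F.support J]
  split_ifs with h
  · rfl
  · rw [notMem_support_iff.1 h, map_zero]

theorem dco_add (F G : MvPolynomial σ L) : dco δ (F + G) = dco δ F + dco δ G := by
  ext J
  rw [coeff_add, coeff_dco, coeff_dco, coeff_dco, coeff_add, map_add]

theorem dco_zero : dco δ (0 : MvPolynomial σ L) = 0 := by
  ext J
  rw [coeff_dco, coeff_zero, map_zero]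

theorem dco_sum {ι : Type} (s : Finset ι) (F : ι → MvPolynomial σ L) :
    dco δ (∑ i ∈ s, F i) = ∑ i ∈ s, dco δ (F i) := by
  classical
  induction s using Finset.induction_on with
  | empty => simp [dco_zero]
  | insert a s ha ih => rw [Finset.sum_insert ha, Finset.sum_insert ha, dco_add, ih]

theorem dco_C (a : L) : dco δ (C a : MvPolynomial σ L) = C (δ a) := by
  classical
  ext J
  rw [coeff_dco, coeff_C, coeff_C]
  split_ifs
  · rfl
  · rw [map_zero]

theorem dco_X (i : σ) : dco δ (X i : MvPolynomial σ L) = 0 := by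
  classical
  ext J
  rw [coeff_dco, coeff_X', coeff_zero]
  split_ifs
  · exact δ.map_one_eq_zero
  · rw [map_zero]

theorem dco_mul (F G : MvPolynomial σ L) : dco δ (F * G) = dco δ F * G + F * dco δ G := by
  classical
  ext J
  rw [coeff_dco, coeff_mul, map_sum, coeff_add, coeff_mul, coeff_mul, ← Finset.sum_add_distrib]
  refine Finset.sum_congr rfl fun a _ => ?_
  rw [Derivation.leibniz, coeff_dco, coeff_dco]
  simp only [smul_eq_mul]
  ring

theorem dco_pderiv (p : σ) (F : MvPolynomial σ L) :
    dco δ (pderiv p F) = pderiv p (dco δ F) := by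
  classical
  induction F using MvPolynomial.induction_on with
  | C a => rw [pderiv_C, dco_zero, dco_C, pderiv_C]
  | add F G hF hG => rw [map_add, dco_add, hF, hG, dco_add, map_add]
  | mul_X F i hF =>
    have h1 : dco δ (pderiv p (X i : MvPolynomial σ L)) = 0 := by
      by_cases h : p = i
      · subst h
        rw [pderiv_X_self]
        have := dco_C (σ := σ) δ 1
        rw [C_1, δ.map_one_eq_zero, C_0] at this
        exact this
      · rw [pderiv_X_of_ne (Ne.symm h), dco_zero]
    rw [Derivation.leibniz, dco_add, dco_mul δ F (X i), dco_X, mul_zero, add_zero]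
    simp only [smul_eq_mul]
    rw [dco_mul, dco_mul, h1, dco_X, Derivation.leibniz, hF]
    simp only [smul_eq_mul]
    ring

theorem dco_hom {F : MvPolynomial σ L} {e : ℕ} (hF : F.IsHomogeneous e) :
    (dco δ F).IsHomogeneous e := by
  intro J hJ
  rw [coeff_dco] at hJ
  refine hF fun h => hJ ?_
  rw [h, map_zero]

theorem eval_dco {N : ℕ} (x : Fin N → L) (F : MvPolynomial (Fin N) L) :
    eval x (dco δ F) = Pool.Agent.Gen.H12.cpart δ x F := by
  unfold dco Pool.Agent.Gen.H12.cpart
  rw [map_sum]
  refine Finset.sum_congr rfl fun J _ => ?_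
  rw [eval_monomial, Finsupp.prod_fintype]
  intro i
  rw [pow_zero]

end

/-! ### linear forms and matrices -/

section

variable {L : Type} [Field L] {n : ℕ}

/-- linear forms -/
noncomputable def lf (a : Fin (n + 1) → L) : MvPolynomial (Fin (n + 1)) L := ∑ q, C (a q) * X q

theorem lf_hom (a : Fin (n + 1) → L) : (lf a).IsHomogeneous 1 := by
  unfold lf
  refine IsHomogeneous.sum _ _ _ fun q _ => ?_
  simpa using (isHomogeneous_C _ (a q)).mul (isHomogeneous_X L q)

/-- the value of a linear form -/
def dt (a u : Fin (n + 1) → L) : L := ∑ q, a q * u q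

theorem lineP_lf (a x y : Fin (n + 1) → L) :
    lineP (lf a) x y = Polynomial.C (dt a x) + Polynomial.X * Polynomial.C (dt a y) := by
  have h : lineP (lf a) x y = ∑ q, lineP (C (a q) * X q) x y := map_sum _ _ _
  rw [h]
  unfold dt
  rw [map_sum, map_sum, Finset.mul_sum, ← Finset.sum_add_distrib]
  refine Finset.sum_congr rfl fun q _ => ?_
  rw [lineP_mul, lineP_C, lineP_X, map_mul, map_mul]
  ring

theorem pderiv_lf (p : Fin (n + 1)) (a : Fin (n + 1) → L) : pderiv p (lf a) = C (a p) := by
  classical
  unfold lf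
  rw [map_sum, Finset.sum_eq_single p]
  · rw [Derivation.leibniz, pderiv_X_self, pderiv_C]
    simp
  · intro q _ hq
    rw [Derivation.leibniz, pderiv_X_of_ne hq, pderiv_C]
    simp
  · intro h
    exact absurd (Finset.mem_univ _) h

theorem dco_lf (δ : Derivation ℤ L L) (a : Fin (n + 1) → L) :
    dco δ (lf a) = lf fun q => δ (a q) := by
  unfold lf
  rw [dco_sum]
  refine Finset.sum_congr rfl fun q _ => ?_
  rw [dco_mul, dco_X, dco_C, mul_zero, add_zero]

/-- the action of a matrix on forms -/
noncomputable def af (A : Fin (n + 1) → Fin (n + 1) → L) (P : MvPolynomial (Fin (n + 1)) L) :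
    MvPolynomial (Fin (n + 1)) L := ∑ p, lf (A p) * pderiv p P

theorem af_hom (A : Fin (n + 1) → Fin (n + 1) → L) {P : MvPolynomial (Fin (n + 1)) L} {e : ℕ}
    (hP : P.IsHomogeneous e) : (af A P).IsHomogeneous e := by
  unfold af
  refine IsHomogeneous.sum _ _ _ fun p _ => ?_
  cases e with
  | zero =>
    have h0 : pderiv p P = 0 := by
      have h1 : P.totalDegree = 0 := by
        by_cases hz : P = 0
        · rw [hz, totalDegree_zero]
        · exact hP.totalDegree hz
      rw [totalDegree_eq_zero_iff_eq_C.1 h1, pderiv_C]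
    rw [h0, mul_zero]
    exact isHomogeneous_zero _ _ _
  | succ e =>
    have h1 := (lf_hom (A p)).mul (hP.pderiv (i := p))
    have h2 : 1 + (e + 1 - 1) = e + 1 := by omega
    rwa [h2] at h1

theorem dco_af (δ : Derivation ℤ L L) (A : Fin (n + 1) → Fin (n + 1) → L)
    (P : MvPolynomial (Fin (n + 1)) L) :
    dco δ (af A P) = af (fun p q => δ (A p q)) P + af A (dco δ P) := by
  unfold af
  rw [dco_sum, ← Finset.sum_add_distrib]
  refine Finset.sum_congr rfl fun p _ => ?_
  rw [dco_mul, dco_lf, dco_pderiv]

theorem lineP_sum {ι : Type} (s : Finset ι) (F : ι → MvPolynomial (Fin (n + 1)) L)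
    (x y : Fin (n + 1) → L) : lineP (∑ i ∈ s, F i) x y = ∑ i ∈ s, lineP (F i) x y :=
  map_sum _ _ _

theorem lineP_sub (F G : MvPolynomial (Fin (n + 1)) L)
    (x y : Fin (n + 1) → L) : lineP (F - G) x y = lineP F x y - lineP G x y :=
  map_sub _ _ _

theorem lineP_af (A : Fin (n + 1) → Fin (n + 1) → L) (P : MvPolynomial (Fin (n + 1)) L)
    (x y : Fin (n + 1) → L) :
    lineP (af A P) x y = ∑ p, lineP (pderiv p P) x y *
      (Polynomial.C (dt (A p) x) + Polynomial.X * Polynomial.C (dt (A p) y)) := by
  unfold af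
  rw [lineP_sum]
  refine Finset.sum_congr rfl fun p _ => ?_
  rw [lineP_mul, lineP_lf, mul_comm]

/-- the derivative in direction `z`, restricted to the line -/
noncomputable def dz (H : MvPolynomial (Fin (n + 1)) L) (x y z : Fin (n + 1) → L) :
    Polynomial L := ∑ p, lineP (pderiv p H) x y * Polynomial.C (z p)

theorem dz_add (H : MvPolynomial (Fin (n + 1)) L) (x y z z' : Fin (n + 1) → L) :
    dz H x y (z + z') = dz H x y z + dz H x y z' := by
  unfold dz
  rw [← Finset.sum_add_distrib]
  refine Finset.sum_congr rfl fun p _ => ?_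
  rw [Pi.add_apply, map_add]
  ring

theorem dz_smul (H : MvPolynomial (Fin (n + 1)) L) (x y z : Fin (n + 1) → L) (a : L) :
    dz H x y (a • z) = Polynomial.C a * dz H x y z := by
  unfold dz
  rw [Finset.mul_sum]
  refine Finset.sum_congr rfl fun p _ => ?_
  rw [Pi.smul_apply, smul_eq_mul, map_mul]
  ring

theorem dz_y {H : MvPolynomial (Fin (n + 1)) L} (x y : Fin (n + 1) → L)
    (h : lineP H x y = 0) : dz H x y y = 0 := by
  have h1 := lineP_derivative H x y
  rw [h, Polynomial.derivative_zero] at h1
  exact h1.symm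

theorem dz_x {H : MvPolynomial (Fin (n + 1)) L} {e : ℕ} (hH : H.IsHomogeneous e)
    (x y : Fin (n + 1) → L) (h : lineP H x y = 0) : dz H x y x = 0 := by
  have h1 := lineP_euler hH x y
  rw [h, smul_zero] at h1
  have h2 : ∑ p, lineP (pderiv p H) x y *
      (Polynomial.C (x p) + Polynomial.X * Polynomial.C (y p)) =
      dz H x y x + Polynomial.X * dz H x y y := by
    unfold dz
    rw [Finset.mul_sum, ← Finset.sum_add_distrib]
    exact Finset.sum_congr rfl fun p _ => by ring
  rw [h2, dz_y x y h, mul_zero, add_zero] at h1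
  exact h1

/-- the derivative of the restriction -/
theorem line_dco [CharZero L] (δ : Derivation ℤ L L) {H : MvPolynomial (Fin (n + 1)) L}
    (x y : Fin (n + 1) → L) (h : lineP H x y = 0) :
    lineP (dco δ H) x y = - (dz H x y (fun p => δ (x p)) +
      Polynomial.X * dz H x y (fun p => δ (y p))) := by
  apply Polynomial.eq_of_infinite_eval_eq
  refine Set.Infinite.mono ?_ (Set.infinite_range_of_injective (f := fun k : ℕ => (k : L))
    Nat.cast_injective)
  rintro _ ⟨k, rfl⟩
  simp only [Set.mem_ofPred_eq]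
  have hz : eval (fun p => x p + (k : L) * y p) H = 0 := by
    rw [← lineP_eval, h, Polynomial.eval_zero]
  have h1 := Pool.Agent.Gen.H12.der_eval δ (fun p => x p + (k : L) * y p) H
  rw [hz, map_zero, ← eval_dco] at h1
  rw [lineP_eval]
  have h2 : ∀ p, δ (x p + (k : L) * y p) = δ (x p) + (k : L) * δ (y p) := by
    intro p
    rw [map_add, ← nsmul_eq_mul, map_nsmul, nsmul_eq_mul]
  simp only [h2] at h1
  unfold dz
  rw [Polynomial.eval_neg, Polynomial.eval_add, Polynomial.eval_mul, Polynomial.eval_X,
    Polynomial.eval_finsetSum, Polynomial.eval_finsetSum]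
  simp only [Polynomial.eval_mul, Polynomial.eval_C, lineP_eval]
  rw [Finset.mul_sum, ← Finset.sum_add_distrib]
  have h3 : ∑ p, (eval (fun p => x p + (k : L) * y p) (pderiv p H) * δ (x p) +
      (k : L) * (eval (fun p => x p + (k : L) * y p) (pderiv p H) * δ (y p))) =
      ∑ p, eval (fun p => x p + (k : L) * y p) (pderiv p H) * (δ (x p) + (k : L) * δ (y p)) :=
    Finset.sum_congr rfl fun p _ => by ring
  rw [h3]
  linear_combination -h1

end

end Pool.Agent.Sharp.H75
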