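import Pool.Agent.Lib.MP_c7af3c_ag.SHARP.H75.Key

/-!
# MP_c7af3c_ag, project SHARP: the integrability lemma
-/

set_option autoImplicit false

namespace Pool.Agent.Sharp.H75

open MvPolynomial Pool.Agent.Gen Pool.Agent.Sharp Pool.Agent.Sharp.H54

section

variable {L : Type} [Field L] {n c : ℕ} {d : Fin c → ℕ} (D : DSys L n c d)

/-- matrices -/
abbrev Mt (L : Type) [Field L] (n : ℕ) : Type := Fin (n + 1) → Fin (n + 1) → L

theorem lf_add (a b : Fin (n + 1) → L) : lf (a + b) = lf a + lf b := by
  unfold lf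
  rw [← Finset.sum_add_distrib]
  refine Finset.sum_congr rfl fun q _ => ?_
  rw [Pi.add_apply, map_add, add_mul]

theorem lf_smul (r : L) (a : Fin (n + 1) → L) : lf (r • a) = C r * lf a := by
  unfold lf
  rw [Finset.mul_sum]
  refine Finset.sum_congr rfl fun q _ => ?_
  rw [Pi.smul_apply, smul_eq_mul, map_mul, mul_assoc]

/-- `A ↦ A * F` -/
noncomputable def afT : Mt L n →ₗ[L] Tup L n c where
  toFun A := fun m => af A (D.F m)
  map_add' A B := by
    funext m
    simp only [Pi.add_apply]
    unfold af
    rw [← Finset.sum_add_distrib]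
    refine Finset.sum_congr rfl fun p _ => ?_
    rw [Pi.add_apply, lf_add, add_mul]
  map_smul' a A := by
    funext m
    simp only [Pi.smul_apply, RingHom.id_apply]
    unfold af
    rw [smul_eq_C_mul, Finset.mul_sum]
    refine Finset.sum_congr rfl fun p _ => ?_
    rw [Pi.smul_apply, lf_smul, mul_assoc]

/-- `A ↦ A u` -/
def mv (u : Fin (n + 1) → L) : Mt L n →ₗ[L] (Fin (n + 1) → L) where
  toFun A := fun p => dt (A p) u
  map_add' A B := by
    funext p
    unfold dt
    simp [add_mul, Finset.sum_add_distrib]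
  map_smul' a A := by
    funext p
    unfold dt
    simp [Finset.mul_sum, mul_assoc]

/-- the operators `P_(G,A) u = D_{G + A*F} u + A u` -/
noncomputable def op (u : Fin (n + 1) → L) : Tup L n c × Mt L n →ₗ[L] (Fin (n + 1) → L) :=
  (VT D u).comp (LinearMap.fst L _ _) +
    ((VT D u).comp (afT D) + mv u).comp (LinearMap.snd L _ _)

theorem op_apply (u : Fin (n + 1) → L) (G : Tup L n c) (A : Mt L n) (p : Fin (n + 1)) :
    op D u (G, A) p = DG D (G + fun m => af A (D.F m)) (u p) + dt (A p) u := by
  have h : op D u (G, A) = VT D u G + (VT D u (afT D A) + mv u A) := rfl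
  rw [h, ← add_assoc, ← map_add, Pi.add_apply, VT_apply]
  rfl

theorem op_zero (u : Fin (n + 1) → L) (G : Tup L n c) : op D u (G, 0) = VT D u G := by
  have h : op D u (G, 0) = VT D u G + (VT D u (afT D 0) + mv u 0) := rfl
  rw [h, map_zero, map_zero, map_zero, add_zero, add_zero]

/-- the tuples that vanish on the line -/
def IL (d : Fin c → ℕ) (x y : Fin (n + 1) → L) : Submodule L (Tup L n c) where
  carrier := {G | Hom d G ∧ ∀ m, lineP (G m) x y = 0}
  add_mem' := by
    rintro G H ⟨h1, h2⟩ ⟨h3, h4⟩
    refine ⟨fun m => (h1 m).add (h3 m), fun m => ?_⟩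
    rw [Pi.add_apply, lineP_add, h2 m, h4 m, add_zero]
  zero_mem' := ⟨fun m => isHomogeneous_zero _ _ _, fun m => map_zero _⟩
  smul_mem' := by
    rintro a G ⟨h1, h2⟩
    refine ⟨fun m => ?_, fun m => ?_⟩
    · have := (isHomogeneous_C (Fin (n + 1)) a).mul (h1 m)
      rw [zero_add] at this
      rw [Pi.smul_apply, smul_eq_C_mul]
      exact this
    · rw [Pi.smul_apply, smul_eq_C_mul, lineP_mul, h2 m, mul_zero]

theorem mem_IL {x y : Fin (n + 1) → L} {G : Tup L n c} :
    G ∈ IL d x y ↔ Hom d G ∧ ∀ m, lineP (G m) x y = 0 := Iff.rfl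

/-- the operators in `I_l ⊕ gl` which preserve `x` -/
noncomputable def S0 (x y : Fin (n + 1) → L) : Submodule L (Tup L n c × Mt L n) :=
  (IL d x y).prod ⊤ ⊓ (Submodule.span L {x}).comap (op D x)

/-- the variations of `y` -/
noncomputable def RR (x y : Fin (n + 1) → L) : Submodule L (Fin (n + 1) → L) :=
  (S0 D x y).map (op D y)

theorem mem_S0 {x y : Fin (n + 1) → L} {ξ : Tup L n c × Mt L n} :
    ξ ∈ S0 D x y ↔ ξ.1 ∈ IL d x y ∧ op D x ξ ∈ Submodule.span L {x} := by
  unfold S0
  rw [Submodule.mem_inf, Submodule.mem_prod, Submodule.mem_comap]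
  simp

variable {D}

theorem VT_mem' {x y : Fin (n + 1) → L} {G : Tup L n c} (hG : G ∈ IL d x y) :
    VT D x G ∈ TT D x y := VT_mem hG.1 hG.2

/-- linear functionals with given values -/
theorem exists_ab {x y : Fin (n + 1) → L} (hxy : LinearIndependent L ![x, y]) :
    ∃ α β : Fin (n + 1) → L, dt α x = 1 ∧ dt α y = 0 ∧ dt β x = 0 ∧ dt β y = 1 := by
  obtain ⟨i, j, hij⟩ : ∃ i j, plu x y i j ≠ 0 := by
    have hx : x ≠ 0 := by
      have := hxy.ne_zero 0
      simpa using this
    obtain ⟨i, hi⟩ : ∃ i, x i ≠ 0 := Function.ne_iff.1 hx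
    obtain ⟨j, hj⟩ := exists_plu_ne hxy hi
    exact ⟨i, j, hj⟩
  unfold plu at hij
  have hdt : ∀ (a b : L) (u : Fin (n + 1) → L),
      dt (a • Pi.single i (1 : L) + b • Pi.single j (1 : L)) u = a * u i + b * u j := by
    intro a b u
    unfold dt
    simp [add_mul, Finset.sum_add_distrib, Pi.single_apply]
  obtain ⟨r, hr⟩ : ∃ r : L, (x i * y j - x j * y i) * r = 1 :=
    ⟨(x i * y j - x j * y i)⁻¹, mul_inv_cancel₀ hij⟩
  refine ⟨(y j * r) • Pi.single i 1 + (-(y i) * r) • Pi.single j 1,
    (-(x j) * r) • Pi.single i 1 + (x i * r) • Pi.single j 1, ?_, ?_, ?_, ?_⟩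
  · rw [hdt]; linear_combination hr
  · rw [hdt]; ring
  · rw [hdt]; ring
  · rw [hdt]; linear_combination hr

theorem d_pos {x : Fin (n + 1) → L} (h0 : ∀ m, eval x (D.F m) = 0) (m : Fin c) : 1 ≤ d m := by
  by_contra hcon
  have hd : d m = 0 := by omega
  have h1 := D.hom m
  rw [hd] at h1
  have h2 : (D.F m).totalDegree = 0 := by
    by_cases hz : D.F m = 0
    · rw [hz, totalDegree_zero]
    · exact h1.totalDegree hz
  have h3 := totalDegree_eq_zero_iff_eq_C.1 h2
  have h4 := h0 m
  rw [h3, eval_C] at h4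
  have h5 := D.dual m 0 m 0 (by rw [hd]; rfl) (by rw [hd]; rfl)
  rw [h4, map_zero, if_pos ⟨rfl, rfl⟩] at h5
  exact zero_ne_one h5

/-- a homogeneous form restricts to a polynomial of bounded degree -/
theorem degree_lineP {P : MvPolynomial (Fin (n + 1)) L} {e : ℕ} (hP : P.IsHomogeneous e)
    (x y : Fin (n + 1) → L) : lineP P x y ∈ Polynomial.degreeLT L (e + 1) := by
  classical
  rw [P.as_sum, lineP_sum]
  refine Submodule.sum_mem _ fun I hI => ?_
  rw [Polynomial.mem_degreeLT]
  have h1 : I.degree = e := by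
    have := hP (mem_support_iff.1 hI)
    rw [← this, Finsupp.degree_eq_weight_one]
    rfl
  have h2 : lineP (monomial I (coeff I P)) x y = Polynomial.C (coeff I P) *
      ∏ i, (Polynomial.C (x i) + Polynomial.X * Polynomial.C (y i)) ^ (I i) := by
    unfold lineP
    rw [aeval_monomial, Finsupp.prod_fintype]
    · rfl
    · intro i
      rw [pow_zero]
  rw [h2]
  have h3 : (∏ i, (Polynomial.C (x i) + Polynomial.X * Polynomial.C (y i)) ^ (I i) :
      Polynomial L).natDegree ≤ e := by
    refine (Polynomial.natDegree_prod_le _ _).trans ?_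
    have h4 : ∑ i, I i = e := by
      rw [← h1, Finsupp.degree_eq_sum]
    rw [← h4]
    refine Finset.sum_le_sum fun i _ => ?_
    refine (Polynomial.natDegree_pow_le).trans ?_
    have h5 : (Polynomial.C (x i) + Polynomial.X * Polynomial.C (y i)).natDegree ≤ 1 := by
      refine (Polynomial.natDegree_add_le _ _).trans (max_le ?_ ?_)
      · rw [Polynomial.natDegree_C]; exact Nat.zero_le _
      · refine (Polynomial.natDegree_mul_le).trans ?_
        rw [Polynomial.natDegree_C, add_zero]
        exact Polynomial.natDegree_X_le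
    nlinarith [Nat.zero_le (I i)]
  have h6 : (Polynomial.C (coeff I P) *
      ∏ i, (Polynomial.C (x i) + Polynomial.X * Polynomial.C (y i)) ^ (I i) :
      Polynomial L).natDegree ≤ e := (Polynomial.natDegree_C_mul_le _ _).trans h3
  refine lt_of_le_of_lt Polynomial.degree_le_natDegree ?_
  exact_mod_cast Nat.lt_succ_of_le h6

/-- forms with given restriction -/
theorem exists_form' {x y : Fin (n + 1) → L} (h : LinearIndependent L ![x, y]) (e : ℕ)
    (g : Polynomial L) (hg : g ∈ Polynomial.degreeLT L (e + 1)) :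
    ∃ G : MvPolynomial (Fin (n + 1)) L, G.IsHomogeneous e ∧ lineP G x y = g := by
  classical
  choose! G hG hG' using fun k (hk : k ≤ e) => exists_form h e k hk
  refine ⟨∑ k ∈ Finset.range (e + 1), C (g.coeff k) * G k, ?_, ?_⟩
  · refine IsHomogeneous.sum _ _ _ fun k hk => ?_
    have h1 := (isHomogeneous_C (Fin (n + 1)) (g.coeff k)).mul
      (hG k (Nat.lt_succ_iff.1 (Finset.mem_range.1 hk)))
    rwa [zero_add] at h1
  · rw [lineP_sum]
    have h1 : ∀ k ∈ Finset.range (e + 1), lineP (C (g.coeff k) * G k) x y =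
        Polynomial.C (g.coeff k) * Polynomial.X ^ k := by
      intro k hk
      rw [lineP_mul, lineP_C, hG' k (Nat.lt_succ_iff.1 (Finset.mem_range.1 hk))]
    rw [Finset.sum_congr rfl h1]
    have h2 : g.natDegree < e + 1 := by
      rw [Polynomial.mem_degreeLT] at hg
      by_cases hz : g = 0
      · rw [hz, Polynomial.natDegree_zero]; omega
      · exact (Polynomial.natDegree_lt_iff_degree_lt hz).2 hg
    conv_rhs => rw [g.as_sum_range_C_mul_X_pow' h2]

/-- tuples of forms of degrees `d - 1` -/
def QQ (d : Fin c → ℕ) : Submodule L (Tup L n c) where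
  carrier := {Q | ∀ m, (Q m).IsHomogeneous (d m - 1)}
  add_mem' := fun h1 h2 m => (h1 m).add (h2 m)
  zero_mem' := fun m => isHomogeneous_zero _ _ _
  smul_mem' := by
    intro a Q h m
    have := (isHomogeneous_C (Fin (n + 1)) a).mul (h m)
    rw [zero_add] at this
    rw [Pi.smul_apply, smul_eq_C_mul]
    exact this

/-- multiplication with a linear form -/
noncomputable def ml (β : Fin (n + 1) → L) : Tup L n c →ₗ[L] Tup L n c where
  toFun Q := fun m => lf β * Q m
  map_add' Q R := by
    funext m
    simp only [Pi.add_apply, mul_add]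
  map_smul' a Q := by
    funext m
    simp only [Pi.smul_apply, RingHom.id_apply, mul_smul_comm]

theorem ml_hom (hd : ∀ m, 1 ≤ d m) (β : Fin (n + 1) → L) {Q : Tup L n c} (hQ : Q ∈ QQ d) :
    Hom d (ml β Q) := by
  intro m
  have h1 := (lf_hom β).mul (hQ m)
  have h2 : 1 + (d m - 1) = d m := by have := hd m; omega
  rwa [h2] at h1

/-- `Q ↦ V(t Q)` modulo `Lx + W + V(I_l)` -/
noncomputable def phi (D : DSys L n c d) (x y β : Fin (n + 1) → L) :
    Tup L n c →ₗ[L] ((Fin (n + 1) → L) ⧸ TT D x y) :=
  (TT D x y).mkQ.comp ((VT D x).comp (ml β))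

theorem phi_apply (x y β : Fin (n + 1) → L) (Q : Tup L n c) :
    phi D x y β Q = (TT D x y).mkQ (VT D x (ml β Q)) := rfl

theorem finrank_phi {x y : Fin (n + 1) → L} (hxy : LinearIndependent L ![x, y])
    (h0 : ∀ m, eval x (D.F m) = 0) {β : Fin (n + 1) → L} (hβx : dt β x = 0) (hβy : dt β y = 1) :
    n + 1 ≤ Module.finrank L (TT D x y) + Module.finrank L ((QQ d).map (phi D x y β)) + c := by
  classical
  have hdp := d_pos h0
  obtain ⟨α, -, hαx, -, -, -⟩ := exists_ab hxy
  have hx : x ≠ 0 := by
    have := hxy.ne_zero 0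
    simpa using this
  obtain ⟨j0, hj0⟩ : ∃ j, x j ≠ 0 := Function.ne_iff.1 hx
  let e : Fin c → ((Fin (n + 1) → L) ⧸ TT D x y) := fun m =>
    (TT D x y).mkQ (D.V x m (X j0 ^ d m))
  have htop : (⊤ : Submodule L ((Fin (n + 1) → L) ⧸ TT D x y)) ≤
      (QQ d).map (phi D x y β) ⊔ Submodule.span L (Set.range e) := by
    rintro w -
    obtain ⟨u, rfl⟩ := (TT D x y).mkQ_surjective w
    set A : Mt L n := fun p q => u p * α q with hA
    set G : Tup L n c := fun m => af A (D.F m) with hG
    have hGh : Hom d G := fun m => af_hom A (D.hom m)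
    have hu : (TT D x y).mkQ u = - (TT D x y).mkQ (VT D x G) := by
      have h1 := WA_mem (D := D) x y A
      have h2 : (fun p => dt (A p) x) = u := by
        funext p
        rw [hA]
        unfold dt
        simp only [mul_assoc]
        rw [← Finset.mul_sum]
        change u p * dt α x = u p
        rw [hαx, mul_one]
      rw [h2] at h1
      have h3 : (TT D x y).mkQ (u + VT D x G) = 0 := by
        rw [Submodule.mkQ_apply, Submodule.Quotient.mk_eq_zero]
        exact h1
      rw [map_add] at h3
      exact eq_neg_of_add_eq_zero_left h3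
    -- decomposition of `G`
    set a : Fin c → L := fun m => eval x (G m) / x j0 ^ d m with ha
    set G' : Tup L n c := fun m => G m - C (a m) * X j0 ^ d m with hG'
    have hG'h : Hom d G' := by
      intro m
      refine (hGh m).sub ?_
      have h1 := (isHomogeneous_C (Fin (n + 1)) (a m)).mul
        (isHomogeneous_X_pow (R := L) j0 (d m))
      rwa [zero_add] at h1
    have hG'0 : ∀ m, eval x (G' m) = 0 := by
      intro m
      rw [hG', map_sub, map_mul, eval_C, map_pow, eval_X, ha]
      simp only
      rw [div_mul_cancel₀ _ (pow_ne_zero _ hj0), sub_self]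
    have hQ : ∀ m, ∃ Q : MvPolynomial (Fin (n + 1)) L, Q.IsHomogeneous (d m - 1) ∧
        Polynomial.X * lineP Q x y = lineP (G' m) x y := by
      intro m
      have h1 : (lineP (G' m) x y).coeff 0 = 0 := by
        rw [Polynomial.coeff_zero_eq_eval_zero, lineP_eval]
        have : (fun p => x p + 0 * y p) = x := by funext p; ring
        rw [this]
        exact hG'0 m
      have h2 : Polynomial.X * (lineP (G' m) x y).divX = lineP (G' m) x y := by
        have := Polynomial.X_mul_divX_add (lineP (G' m) x y)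
        rw [h1, map_zero, add_zero] at this
        exact this
      have h3 : (lineP (G' m) x y).divX ∈ Polynomial.degreeLT L (d m - 1 + 1) := by
        have h4 := degree_lineP (hG'h m) x y
        rw [Polynomial.mem_degreeLT] at h4 ⊢
        by_cases hz : (lineP (G' m) x y).divX = 0
        · rw [hz, Polynomial.degree_zero]
          exact WithBot.bot_lt_coe _
        · rw [← h2, Polynomial.degree_mul, Polynomial.degree_X,
            Polynomial.degree_eq_natDegree hz] at h4
          rw [Polynomial.degree_eq_natDegree hz]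
          have h5 : 1 + (lineP (G' m) x y).divX.natDegree < d m + 1 := by exact_mod_cast h4
          have h6 := hdp m
          have h7 : (lineP (G' m) x y).divX.natDegree < d m - 1 + 1 := by omega
          exact_mod_cast h7
      obtain ⟨Q, hQ1, hQ2⟩ := exists_form' hxy (d m - 1) _ h3
      exact ⟨Q, hQ1, by rw [hQ2, h2]⟩
    choose Q hQ1 hQ2 using hQ
    have hI : G' - ml β Q ∈ IL d x y := by
      refine ⟨fun m => (hG'h m).sub (ml_hom hdp β (Q := Q) hQ1 m), fun m => ?_⟩
      rw [Pi.sub_apply, lineP_sub, ← hQ2 m]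
      change _ - lineP (lf β * Q m) x y = 0
      rw [lineP_mul, lineP_lf, hβx, hβy]
      simp
    have hV : VT D x G = VT D x (G' - ml β Q) + VT D x (ml β Q) +
        ∑ m, a m • D.V x m (X j0 ^ d m) := by
      have h1 : G = (G' - ml β Q) + ml β Q + fun m => C (a m) * X j0 ^ d m := by
        funext m
        simp only [Pi.add_apply, Pi.sub_apply, hG']
        ring
      have h2 : VT D x (fun m => C (a m) * X j0 ^ d m) = ∑ m, a m • D.V x m (X j0 ^ d m) := by
        rw [VT_eq]
        refine Finset.sum_congr rfl fun m _ => ?_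
        rw [← smul_eq_C_mul, map_smul]
      conv_lhs => rw [h1]
      rw [map_add, map_add, h2]
    rw [hu, hV, map_add, map_add]
    have h4 : (TT D x y).mkQ (VT D x (G' - ml β Q)) = 0 := by
      rw [Submodule.mkQ_apply, Submodule.Quotient.mk_eq_zero]
      exact VT_mem' hI
    rw [h4, zero_add]
    refine Submodule.neg_mem _ (Submodule.add_mem_sup ?_ ?_)
    · exact ⟨Q, hQ1, rfl⟩
    · rw [map_sum]
      refine Submodule.sum_mem _ fun m _ => ?_
      rw [map_smul]
      exact Submodule.smul_mem _ _ (Submodule.subset_span ⟨m, rfl⟩)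
  have h1 := Submodule.finrank_mono htop
  have h2 := Submodule.finrank_add_le_finrank_add_finrank ((QQ d).map (phi D x y β))
    (Submodule.span L (Set.range e))
  have h3 : Module.finrank L (Submodule.span L (Set.range e)) ≤ c := by
    have := finrank_range_le_card (R := L) e
    simpa [Set.finrank] using this
  have h4 : Module.finrank L (⊤ : Submodule L ((Fin (n + 1) → L) ⧸ TT D x y)) +
      Module.finrank L (TT D x y) = n + 1 := by
    rw [finrank_top]
    have := Submodule.finrank_quotient_add_finrank (TT D x y)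
    rw [Module.finrank_fin_fun] at this
    exact this
  omega

end

end Pool.Agent.Sharp.H75
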