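import Pool.Agent.Lib.MP_c7af3c_ag.SHARP.H75.Dco

/-!
# MP_c7af3c_ag, project SHARP: commutators of the coefficient derivations, key lemma
-/

set_option autoImplicit false

namespace Pool.Agent.Sharp.H75

open MvPolynomial Pool.Agent.Gen Pool.Agent.Sharp Pool.Agent.Sharp.H54

section

variable {L : Type} [Field L] {n c : ℕ} {d : Fin c → ℕ} (D : DSys L n c d)

/-- tuples of forms -/
abbrev Tup (L : Type) [Field L] (n c : ℕ) : Type := Fin c → MvPolynomial (Fin (n + 1)) L

/-- `V(G) = sum_m V_m(G_m)` -/
noncomputable def VT (x : Fin (n + 1) → L) : Tup L n c →ₗ[L] (Fin (n + 1) → L) :=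
  ∑ m, (D.V x m).comp (LinearMap.proj m)

/-- the derivation `D_G` -/
noncomputable def DG (G : Tup L n c) : Derivation ℤ L L :=
  ∑ m, ∑ I ∈ (G m).support, coeff I (G m) • D.del m I

theorem der_sum {ι : Type} (s : Finset ι) (g : ι → Derivation ℤ L L) (f : L) :
    (∑ i ∈ s, g i) f = ∑ i ∈ s, g i f := by
  classical
  induction s using Finset.induction_on with
  | empty => rfl
  | insert a s ha ih => rw [Finset.sum_insert ha, Finset.sum_insert ha, Derivation.add_apply, ih]

theorem DG_apply (G : Tup L n c) (f : L) :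
    DG D G f = ∑ m, ∑ I ∈ (G m).support, coeff I (G m) * D.del m I f := by
  unfold DG
  rw [der_sum]
  refine Finset.sum_congr rfl fun m _ => ?_
  rw [der_sum]
  refine Finset.sum_congr rfl fun I _ => ?_
  rfl

theorem VT_eq (x : Fin (n + 1) → L) (G : Tup L n c) : VT D x G = ∑ m, D.V x m (G m) := by
  unfold VT
  rw [LinearMap.sum_apply]
  rfl

theorem VT_apply (x : Fin (n + 1) → L) (G : Tup L n c) (p : Fin (n + 1)) :
    VT D x G p = DG D G (x p) := by
  rw [VT_eq, Finset.sum_apply, DG_apply]
  exact Finset.sum_congr rfl fun m _ => D.V_apply x m (G m) p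

theorem DG_add (G H : Tup L n c) (f : L) : DG D (G + H) f = DG D G f + DG D H f := by
  have h := congrFun (map_add (VT D (fun _ => f)) G H) 0
  rw [Pi.add_apply, VT_apply, VT_apply, VT_apply] at h
  exact h

theorem DG_sub (G H : Tup L n c) (f : L) : DG D (G - H) f = DG D G f - DG D H f := by
  have h := congrFun (map_sub (VT D (fun _ => f)) G H) 0
  rw [Pi.sub_apply, VT_apply, VT_apply, VT_apply] at h
  exact h

theorem DG_smul (a : L) (G : Tup L n c) (f : L) : DG D (a • G) f = a * DG D G f := by
  have h := congrFun (map_smul (VT D (fun _ => f)) a G) 0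
  rw [Pi.smul_apply, VT_apply, VT_apply] at h
  exact h

theorem DG_zero (f : L) : DG D (0 : Tup L n c) f = 0 := by
  have h := congrFun (map_zero (VT D (fun _ => f))) 0
  rw [VT_apply] at h
  exact h

/-- homogeneous tuples -/
def Hom (d : Fin c → ℕ) (G : Tup L n c) : Prop := ∀ m, (G m).IsHomogeneous (d m)

theorem deg_of_mem {G : Tup L n c} (hG : Hom d G) {m : Fin c} {I : Fin (n + 1) →₀ ℕ}
    (hI : I ∈ (G m).support) : I.degree = d m := by
  have := hG m (mem_support_iff.1 hI)
  rw [← this, Finsupp.degree_eq_weight_one]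
  rfl

/-- `D_G F = G` -/
theorem dco_F {G : Tup L n c} (hG : Hom d G) (m : Fin c) : dco (DG D G) (D.F m) = G m := by
  classical
  ext J
  rw [coeff_dco]
  by_cases hJ : J.degree = d m
  · rw [DG_apply, Finset.sum_eq_single m]
    · by_cases hs : J ∈ (G m).support
      · rw [Finset.sum_eq_single J]
        · rw [D.dual m J m J hJ hJ, if_pos ⟨rfl, rfl⟩, mul_one]
        · intro I hI hne
          rw [D.dual m I m J (deg_of_mem hG hI) hJ, if_neg (fun h => hne h.2), mul_zero]
        · intro h; exact absurd hs h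
      · rw [notMem_support_iff.1 hs]
        refine Finset.sum_eq_zero fun I hI => ?_
        have hne : I ≠ J := fun h => hs (h ▸ hI)
        rw [D.dual m I m J (deg_of_mem hG hI) hJ, if_neg (fun h => hne h.2), mul_zero]
    · intro m' _ hne
      refine Finset.sum_eq_zero fun I hI => ?_
      rw [D.dual m' I m J (deg_of_mem hG hI) hJ, if_neg (fun h => hne h.1), mul_zero]
    · intro h; exact absurd (Finset.mem_univ _) h
  · have h1 : ∀ {P : MvPolynomial (Fin (n + 1)) L}, P.IsHomogeneous (d m) → coeff J P = 0 := by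
      intro P hP
      by_contra h
      apply hJ
      have := hP h
      rw [← this, Finsupp.degree_eq_weight_one]
      rfl
    rw [h1 (D.hom m), h1 (hG m), map_zero]

/-- the derivations commute -/
def Comm (D : DSys L n c d) : Prop := ∀ m I m' J, I.degree = d m → J.degree = d m' → ∀ f,
  D.del m I (D.del m' J f) = D.del m' J (D.del m I f)

variable {D}

theorem DG_DG {G H : Tup L n c} (f : L) :
    DG D G (DG D H f) = DG D (fun m => dco (DG D G) (H m)) f +
      ∑ m, ∑ J ∈ (H m).support, ∑ m', ∑ I ∈ (G m').support,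
        coeff J (H m) * (coeff I (G m') * D.del m' I (D.del m J f)) := by
  classical
  have h1 : DG D (fun m => dco (DG D G) (H m)) f =
      ∑ m, ∑ J ∈ (H m).support, DG D G (coeff J (H m)) * D.del m J f := by
    rw [DG_apply]
    refine Finset.sum_congr rfl fun m _ => ?_
    have hsub : (dco (DG D G) (H m)).support ⊆ (H m).support := by
      intro J hJ
      rw [mem_support_iff, coeff_dco] at hJ
      rw [mem_support_iff]
      intro h0
      exact hJ (by rw [h0, map_zero])
    rw [Finset.sum_subset hsub (fun J _ hJ => by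
      rw [notMem_support_iff.1 hJ, zero_mul])]
    refine Finset.sum_congr rfl fun J _ => ?_
    rw [coeff_dco]
  rw [h1, DG_apply D H f, map_sum, ← Finset.sum_add_distrib]
  refine Finset.sum_congr rfl fun m _ => ?_
  rw [map_sum, ← Finset.sum_add_distrib]
  refine Finset.sum_congr rfl fun J _ => ?_
  rw [Derivation.leibniz]
  simp only [smul_eq_mul]
  rw [DG_apply D G (D.del m J f), Finset.mul_sum]
  rw [add_comm]
  congr 1
  · rw [mul_comm]
  · refine Finset.sum_congr rfl fun m' _ => ?_
    rw [Finset.mul_sum]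

theorem DG_comm (hc : Comm D) {G H : Tup L n c} (hG : Hom d G) (hH : Hom d H) (f : L) :
    DG D G (DG D H f) - DG D H (DG D G f) =
      DG D ((fun m => dco (DG D G) (H m)) - fun m => dco (DG D H) (G m)) f := by
  rw [DG_sub, DG_DG (G := G) (H := H), DG_DG (G := H) (H := G)]
  have h : ∑ m, ∑ J ∈ (H m).support, ∑ m', ∑ I ∈ (G m').support,
      coeff J (H m) * (coeff I (G m') * D.del m' I (D.del m J f)) =
      ∑ m, ∑ J ∈ (G m).support, ∑ m', ∑ I ∈ (H m').support,
        coeff J (G m) * (coeff I (H m') * D.del m' I (D.del m J f)) := by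
    have e1 : ∀ m, ∑ J ∈ (H m).support, ∑ m', ∑ I ∈ (G m').support,
        coeff J (H m) * (coeff I (G m') * D.del m' I (D.del m J f)) =
        ∑ m', ∑ J ∈ (H m).support, ∑ I ∈ (G m').support,
        coeff J (H m) * (coeff I (G m') * D.del m' I (D.del m J f)) := fun m => Finset.sum_comm
    have e2 : ∀ m, ∑ J ∈ (G m).support, ∑ m', ∑ I ∈ (H m').support,
        coeff J (G m) * (coeff I (H m') * D.del m' I (D.del m J f)) =
        ∑ m', ∑ J ∈ (G m).support, ∑ I ∈ (H m').support,
        coeff J (G m) * (coeff I (H m') * D.del m' I (D.del m J f)) := fun m => Finset.sum_comm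
    simp only [e1, e2]
    rw [Finset.sum_comm]
    refine Finset.sum_congr rfl fun m' _ => ?_
    refine Finset.sum_congr rfl fun m _ => ?_
    rw [Finset.sum_comm]
    refine Finset.sum_congr rfl fun I hI => ?_
    refine Finset.sum_congr rfl fun J hJ => ?_
    rw [hc m' I m J (deg_of_mem hG hI) (deg_of_mem hH hJ)]
    ring
  rw [h]
  ring

/-! ### the space `Lx + W + V(I_l)` -/

/-- the columns `W` -/
noncomputable def WT (D : DSys L n c d) (x : Fin (n + 1) → L) (p q : Fin (n + 1)) :
    Fin (n + 1) → L :=
  x q • Pi.single p 1 + ∑ m, D.V x m (X q * pderiv p (D.F m))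

/-- the span of `x`, the columns `W` and `V(I_l)` -/
def TT (D : DSys L n c d) (x y : Fin (n + 1) → L) : Submodule L (Fin (n + 1) → L) :=
  Submodule.span L (insert x ({u | ∃ p q, u = WT D x p q} ∪
    {u | ∃ m G, G.IsHomogeneous (d m) ∧ lineP G x y = 0 ∧ u = D.V x m G}))

theorem x_mem (x y : Fin (n + 1) → L) : x ∈ TT D x y :=
  Submodule.subset_span (Set.mem_insert _ _)

theorem VT_mem {x y : Fin (n + 1) → L} {G : Tup L n c} (hG : Hom d G)
    (h0 : ∀ m, lineP (G m) x y = 0) : VT D x G ∈ TT D x y := by
  rw [VT_eq]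
  refine Submodule.sum_mem _ fun m _ => ?_
  exact Submodule.subset_span (Set.mem_insert_of_mem _ (Or.inr ⟨m, G m, hG m, h0 m, rfl⟩))

/-- `W(A) = A x + V(A * F)` -/
theorem WA_mem (x y : Fin (n + 1) → L) (A : Fin (n + 1) → Fin (n + 1) → L) :
    (fun p => dt (A p) x) + VT D x (fun m => af A (D.F m)) ∈ TT D x y := by
  classical
  have h : (fun p => dt (A p) x) + VT D x (fun m => af A (D.F m)) =
      ∑ p, ∑ q, A p q • WT D x p q := by
    have h1 : VT D x (fun m => af A (D.F m)) =
        ∑ p, ∑ q, A p q • ∑ m, D.V x m (X q * pderiv p (D.F m)) := by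
      rw [VT_eq]
      have h2 : ∀ m, D.V x m (af A (D.F m)) =
          ∑ p, ∑ q, A p q • D.V x m (X q * pderiv p (D.F m)) := by
        intro m
        unfold af lf
        rw [map_sum]
        refine Finset.sum_congr rfl fun p _ => ?_
        rw [Finset.sum_mul, map_sum]
        refine Finset.sum_congr rfl fun q _ => ?_
        rw [mul_assoc, ← smul_eq_C_mul, map_smul]
      simp only [h2]
      rw [Finset.sum_comm]
      refine Finset.sum_congr rfl fun p _ => ?_
      rw [Finset.sum_comm]
      refine Finset.sum_congr rfl fun q _ => ?_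
      rw [Finset.smul_sum]
    have h3 : (fun p => dt (A p) x) = ∑ p, ∑ q, A p q • (x q • Pi.single p (1 : L)) := by
      funext r
      rw [Finset.sum_apply, Finset.sum_eq_single r]
      · rw [Finset.sum_apply]
        unfold dt
        refine Finset.sum_congr rfl fun q _ => ?_
        simp
      · intro p _ hp
        rw [Finset.sum_apply]
        refine Finset.sum_eq_zero fun q _ => ?_
        simp [Ne.symm hp]
      · intro h; exact absurd (Finset.mem_univ _) h
    rw [h1, h3, ← Finset.sum_add_distrib]
    refine Finset.sum_congr rfl fun p _ => ?_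
    rw [← Finset.sum_add_distrib]
    refine Finset.sum_congr rfl fun q _ => ?_
    unfold WT
    rw [smul_add]
  rw [h]
  refine Submodule.sum_mem _ fun p _ => Submodule.sum_mem _ fun q _ => Submodule.smul_mem _ _ ?_
  exact Submodule.subset_span (Set.mem_insert_of_mem _ (Or.inl ⟨p, q, rfl⟩))

/-- the key lemma: the bracket -/
theorem key [CharZero L] (hc : Comm D) {x y : Fin (n + 1) → L} {G H : Tup L n c}
    (hG : Hom d G) (hH : Hom d H) (hG0 : ∀ m, lineP (G m) x y = 0)
    (A : Fin (n + 1) → Fin (n + 1) → L) (lam mu α β : L)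
    (h1 : ∀ p, DG D (G + fun m => af A (D.F m)) (x p) + dt (A p) x = lam * x p)
    (h2 : ∀ p, DG D H (x p) = mu * x p)
    (h3 : ∀ p, DG D H (y p) = α * x p + β * y p) :
    VT D x (fun m => dco (DG D (G + fun m => af A (D.F m))) (H m) - af A (H m)) ∈
      TT D x y := by
  classical
  set G' : Tup L n c := G + fun m => af A (D.F m) with hG'
  set δ := DG D G' with hδ
  set ε := DG D H with hε
  have hG'h : Hom d G' := fun m => (hG m).add (af_hom A (D.hom m))
  -- the coefficient part of `ε G'`
  have e1 : ∀ m, dco ε (G' m) = dco ε (G m) + af (fun p q => ε (A p q)) (D.F m) +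
      af A (H m) := by
    intro m
    rw [hG', Pi.add_apply, dco_add, dco_af, hε, dco_F D hH m, add_assoc]
  -- the bracket applied to `x`
  have e2 : ∀ p, DG D ((fun m => dco δ (H m)) - fun m => dco ε (G' m)) (x p) =
      (δ mu - ε lam) * x p + dt (fun q => ε (A p q)) x := by
    intro p
    rw [hδ, hε, ← DG_comm hc hG'h hH, ← hδ, ← hε, h2 p]
    have h4 : δ (x p) = lam * x p - dt (A p) x := by
      rw [← h1 p]
      ring
    have h5 : ε (dt (A p) x) = dt (fun q => ε (A p q)) x + mu * dt (A p) x := by
      unfold dt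
      rw [map_sum, Finset.mul_sum, ← Finset.sum_add_distrib]
      refine Finset.sum_congr rfl fun q _ => ?_
      rw [Derivation.leibniz, h2 q]
      simp only [smul_eq_mul]
      ring
    rw [h4, map_sub, h5, Derivation.leibniz, Derivation.leibniz, h4, h2 p]
    simp only [smul_eq_mul]
    ring
  have e3 : VT D x (fun m => dco δ (H m) - af A (H m)) =
      VT D x (fun m => dco ε (G m)) +
      ((fun p => dt (fun q => ε (A p q)) x) +
        VT D x (fun m => af (fun p q => ε (A p q)) (D.F m))) + (δ mu - ε lam) • x := by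
    have h6 : (fun m => dco δ (H m) - af A (H m)) =
        ((fun m => dco δ (H m)) - fun m => dco ε (G' m)) + (fun m => dco ε (G m)) +
          fun m => af (fun p q => ε (A p q)) (D.F m) := by
      funext m
      simp only [Pi.add_apply, Pi.sub_apply]
      rw [e1 m]
      ring
    rw [h6, map_add, map_add]
    have h7 : VT D x ((fun m => dco δ (H m)) - fun m => dco ε (G' m)) =
        (δ mu - ε lam) • x + fun p => dt (fun q => ε (A p q)) x := by
      funext p
      rw [VT_apply, e2 p]
      rfl
    rw [h7]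
    abel
  rw [e3]
  refine Submodule.add_mem _ (Submodule.add_mem _ ?_ (WA_mem x y _)) ?_
  · refine VT_mem (fun m => dco_hom ε (hG m)) fun m => ?_
    rw [line_dco ε x y (hG0 m)]
    have h8 : (fun p => ε (x p)) = mu • x := by
      funext p; rw [h2 p]; rfl
    have h9 : (fun p => ε (y p)) = α • x + β • y := by
      funext p; rw [h3 p]; rfl
    rw [h8, h9, dz_add, dz_smul, dz_smul, dz_smul, dz_x (hG m) x y (hG0 m), dz_y x y (hG0 m)]
    simp
  · exact Submodule.smul_mem _ _ (x_mem x y)

end

end Pool.Agent.Sharp.H75
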